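import Pool.Agent.Y900.CJ.Det

/-!
# Zagier's determinants at almost all points of number fields

Zagier's conjecture expresses `ζ_F(n)` by determinants of the numbers `𝓛_n(σ_j(y_i))`, where `𝓛_n` is the single-valued
polylogarithm, the `σ_j` are embeddings of `F` and the `y_i` are certain elements of the group ring of `F^*`. We show that
for almost all tuples `y_1, …, y_r` of elements of `F` the numbers `𝓛_k(σ_j(y_i))`, for all embeddings `σ_j` up to
complex conjugation and finitely many weights `k`, satisfy no polynomial relation of bounded degree and height, even an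
approximate one and relative to arbitrary complex constants (such as `ζ_F(n)`, `π`, `√|d_F|`). In particular the
determinants of Zagier's conjecture formed with elements of the group ring supported in `{y_1, …, y_r}` are almost never
the product of such a constant and an algebraic number.

Proof: for fixed numerators and denominator all the conjugates of a point of `F` are shifted simultaneously by the same
rational number; the branches of the polylogarithms at the simultaneously shifted conjugates are algebraically independent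
functions of the shift (`Pool.Agent.Y900.CJ.locInd_pts`), and the counting theorem of helper124, made uniform in
parameters (`Pool.Agent.Y900.PV.multiLin`), applies.
-/

set_option autoImplicit false

open NumberField
open scoped ComplexConjugate Nat

namespace Pool.Agent.Results.MP_f01982_nt.AllConjugates

/-- The polylogarithm `Li_m(z) = ∑_{k ≥ 1} z^k / k^m`, for `|z| < 1`. -/
noncomputable def Li (m : ℕ) (z : ℂ) : ℂ := ∑' k : ℕ, z ^ (k + 1) / ((k : ℂ) + 1) ^ m

/-- The sum `∑_{0 ≤ k < n} β_k log^k|z| Li_{n-k}(z)`, `β_k = 2^k B_k / k!`, for `|z| < 1`. -/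
noncomputable def S (n : ℕ) (z : ℂ) : ℂ :=
  ∑ k ∈ Finset.range n, ((2 ^ k * bernoulli k / (k ! : ℚ) : ℚ) : ℂ) * (Real.log ‖z‖ : ℂ) ^ k * Li (n - k) z

/-- The real part (`n` odd) or the imaginary part (`n` even). -/
noncomputable def part (n : ℕ) (x : ℂ) : ℝ := if Even n then x.im else x.re

/-- The single-valued polylogarithm `𝓛_n(z)`, `n ≥ 2`, `|z| ≠ 1`; for `|z| > 1` it is given by the inversion relation
`𝓛_n(z) = (-1)^(n-1) 𝓛_n(1/z)`. -/
noncomputable def L (n : ℕ) (z : ℂ) : ℝ := if ‖z‖ < 1 then part n (S n z) else (-1) ^ (n - 1) * part n (S n z⁻¹)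

/-- The systems of complex numbers, all different from `0` and not on the unit circle, with all differences of different
members different from `0, 1, -1`. -/
def Region (D : ℕ) : Set (Fin D → ℂ) :=
  {z | (∀ i, z i ≠ 0 ∧ ‖z i‖ ≠ 1) ∧ ∀ i j, i ≠ j → z i ≠ z j ∧ z i ≠ z j + 1}

/-- The elements `b⁻¹ (p + a_1 ω_1 + ⋯ + a_e ω_e)` of `F`, where `p, a_1, …, a_e, b` are integers of absolute value at most
`T` and `b ≥ 1`. -/
def Points {F : Type} [Field F] {e : ℕ} (ω : Fin e → F) (T : ℝ) : Set F :=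
  {y | ∃ (p : ℤ) (a : Fin e → ℤ) (b : ℕ), |(p : ℝ)| ≤ T ∧ (∀ k, |(a k : ℝ)| ≤ T) ∧ 1 ≤ b ∧ (b : ℝ) ≤ T ∧
    y = ((p : F) + ∑ k, (a k : F) * ω k) / (b : F)}

/-- The data: `cj` is the permutation of the indices `0, …, D - 1` of the embeddings given by complex conjugation; for each
`a < q` an embedding (of index `pl a`) and a weight `wt a ≥ 2` are given; the pairs `pl a, wt a` are different, and no two
of them with the same weight belong to conjugate embeddings; if the embedding is real, the weight is odd. -/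
structure Data {D q : ℕ} (cj : Fin D → Fin D) (pl : Fin q → Fin D) (wt : Fin q → ℕ) : Prop where
  two_le : ∀ a, 2 ≤ wt a
  ne : ∀ a b, pl a = pl b → wt a = wt b → a = b
  not_conj : ∀ a b, cj (pl a) = pl b → wt a = wt b → a = b
  odd : ∀ a, cj (pl a) = pl a → Odd (wt a)

/-- The `r`-tuples `y` of points of `F` with all conjugates in `K` for which some polynomial `P`, of degree at most `d` in
each of its `r q` variables, with coefficients of the form `∑ ξ_i c_i`, where the `c_i` are integers of the number field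
`E` with all conjugates of absolute value at most `T^A`, takes at the numbers `𝓛_(wt a)(σ_(pl a)(y_j))` a value of absolute
value at most `T^(-B)` times one of its nonzero coefficients. -/
def Exceptional {F : Type} [Field F] {D q e g : ℕ} (σ : Fin D → (F →+* ℂ)) (pl : Fin q → Fin D) (wt : Fin q → ℕ)
    (ω : Fin e → F) (K : Set (Fin D → ℂ)) (r d : ℕ) (E : Type) [Field E] [NumberField E] (io : E →+* ℂ)
    (ξ : Fin g → ℂ) (A B T : ℝ) : Set (Fin r → F) :=
  {y | (∀ j, y j ∈ Points ω T ∧ (fun i => σ i (y j)) ∈ K) ∧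
    ∃ P : MvPolynomial (Fin r × Fin q) ℂ, (∀ x, P.degreeOf x ≤ d) ∧
      (∀ s, ∃ c : Fin g → 𝓞 E, (∀ i (f : E →+* ℂ), ‖f (c i)‖ ≤ T ^ A) ∧ P.coeff s = ∑ i, ξ i * io (c i)) ∧
      ∃ s₀, P.coeff s₀ ≠ 0 ∧
        ‖MvPolynomial.aeval (fun x : Fin r × Fin q => (L (wt x.2) (σ (pl x.2) (y x.1)) : ℂ)) P‖ ≤
          T ^ (-B) * ‖P.coeff s₀‖}

/-- The `r`-tuples `y` of points of `F` with all conjugates in `K` for which there are elements
`η_i = ∑_l N_il {y_l}`, `i < q`, of the group ring, with integer coefficients of absolute value at most `T^A` and with the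
matrix `N` of rank `q`, and integers `a`, `b ≠ 0` of `E` with all conjugates of absolute value at most `T^A`, such that the
determinant of the numbers `𝓛_(wt a)(σ_(pl a)(η_i))` differs from `a / b` times `ξ` by at most `T^(-B)`. -/
def DetExceptional {F : Type} [Field F] {D q e : ℕ} (σ : Fin D → (F →+* ℂ)) (pl : Fin q → Fin D) (wt : Fin q → ℕ)
    (ω : Fin e → F) (K : Set (Fin D → ℂ)) (r : ℕ) (E : Type) [Field E] [NumberField E] (io : E →+* ℂ)
    (ξ : ℂ) (A B T : ℝ) : Set (Fin r → F) :=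
  {y | (∀ j, y j ∈ Points ω T ∧ (fun i => σ i (y j)) ∈ K) ∧
    ∃ N : Matrix (Fin q) (Fin r) ℤ, (∀ i l, |(N i l : ℝ)| ≤ T ^ A) ∧ LinearIndependent ℤ N.row ∧
      ∃ a b : 𝓞 E, b ≠ 0 ∧ (∀ f : E →+* ℂ, ‖f a‖ ≤ T ^ A ∧ ‖f b‖ ≤ T ^ A) ∧
        ‖Matrix.det (fun i a => ∑ l, (N i l : ℂ) * (L (wt a) (σ (pl a) (y l)) : ℂ) : Matrix (Fin q) (Fin q) ℂ) -
          io a / io b * ξ‖ ≤ T ^ (-B)}

theorem mem_points {F : Type} [Field F] {e : ℕ} {ω : Fin e → F} {T : ℝ} {y : F} (h : y ∈ Points ω T) :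
    ∃ v ∈ Pool.Agent.Y900.CJ.Box e T, y = ((v.1 : F) + ∑ k, (v.2.1 k : F) * ω k) / (v.2.2 : F) := by
  obtain ⟨p, a, b, h1, h2, h3, h4, h5⟩ := h
  exact ⟨(p, a, b), ⟨h1, h2, h3, h4⟩, h5⟩

/-- Let `D ≥ 1`, `K` a compact subset of `Region D`, and `cj`, `pl`, `wt` as in `Data`. For all `m, r, e, g, d`, `A` and
`ε > 0` there are `B, C, T₀` such that for every field `F` with embeddings `σ_i`, `i < D`, such that `σ_(cj i)` is complex
conjugate to `σ_i`, all elements `ω_1, …, ω_e` of `F`, every number field `E` of degree at most `m` with an embedding in `ℂ`,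
all complex numbers `ξ_1, …, ξ_g` and all `T ≥ T₀` the number of exceptional `r`-tuples is at most `C T^(r(e+2)-1+ε)`. The
same holds for the determinants. (If `1, ω_1, …, ω_e` is a basis of the number field `F`, then there are about `T^(r(e+2))`
tuples.) -/
theorem result {D q : ℕ} (hD : 1 ≤ D) (cj : Fin D → Fin D) (pl : Fin q → Fin D) (wt : Fin q → ℕ)
    (hdata : Data cj pl wt) (K : Set (Fin D → ℂ)) (hK : IsCompact K) (hKR : K ⊆ Region D) (m r e g d : ℕ) (A ε : ℝ)
    (hε : 0 < ε) :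
    (∃ B C T₀ : ℝ, ∀ (F : Type) [Field F] (σ : Fin D → (F →+* ℂ)), (∀ i y, σ (cj i) y = conj (σ i y)) →
      ∀ (ω : Fin e → F) (E : Type) [Field E] [NumberField E], Module.finrank ℚ E ≤ m →
      ∀ (io : E →+* ℂ) (ξ : Fin g → ℂ) (T : ℝ), T₀ ≤ T →
        (Exceptional σ pl wt ω K r d E io ξ A B T).Finite ∧
        ((Exceptional σ pl wt ω K r d E io ξ A B T).ncard : ℝ) ≤ C * T ^ ((r : ℝ) * (e + 2) - 1 + ε)) ∧
    (1 ≤ q → ∃ B C T₀ : ℝ, ∀ (F : Type) [Field F] (σ : Fin D → (F →+* ℂ)), (∀ i y, σ (cj i) y = conj (σ i y)) →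
      ∀ (ω : Fin e → F) (E : Type) [Field E] [NumberField E], Module.finrank ℚ E ≤ m →
      ∀ (io : E →+* ℂ) (ξ : ℂ) (T : ℝ), T₀ ≤ T →
        (DetExceptional σ pl wt ω K r E io ξ A B T).Finite ∧
        ((DetExceptional σ pl wt ω K r E io ξ A B T).ncard : ℝ) ≤ C * T ^ ((r : ℝ) * (e + 2) - 1 + ε)) := by
  have hcj : ∀ a b, cj (pl a) = pl b → wt a = wt b → a = b ∧ Odd (wt a) := by
    intro a b h1 h2
    have h3 := hdata.not_conj a b h1 h2
    subst h3
    exact ⟨rfl, hdata.odd a h1⟩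
  have hw : ∀ a, 1 ≤ wt a := fun a => (Nat.le_succ 1).trans (hdata.two_le a)
  have hL : ∀ (n : ℕ) (z : ℂ), L n z = Pool.Agent.Y900.CJ.LL n z := fun n z => rfl
  refine ⟨?_, fun hq => ?_⟩
  · obtain ⟨B, C, T₀, -, -, H⟩ := Pool.Agent.Y900.CJ.zag_poly hD cj pl wt hw hdata.ne hcj K hK hKR m r e d (Fin g) A ε hε
    refine ⟨B, C, T₀, ?_⟩
    intro F _ σ hσ ω E _ _ hm io ξ T hT
    refine H F σ hσ ω E hm io ξ T hT _ fun y hy => ?_
    obtain ⟨h1, h2⟩ := hy
    exact ⟨fun j => ⟨mem_points (h1 j).1, (h1 j).2⟩, h2⟩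
  · obtain ⟨B, C, T₀, -, -, H⟩ := Pool.Agent.Y900.CJ.zag_det hD hq cj pl wt hw hdata.ne hcj K hK hKR m r e A ε hε
    refine ⟨B, C, T₀, ?_⟩
    intro F _ σ hσ ω E _ _ hm io ξ T hT
    refine H F σ hσ ω E hm io ξ T hT _ fun y hy => ?_
    obtain ⟨h1, N, h2, h3, h4⟩ := hy
    exact ⟨fun j => ⟨mem_points (h1 j).1, (h1 j).2⟩, N, h2, h3, h4⟩

end Pool.Agent.Results.MP_f01982_nt.AllConjugates
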